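import Mathlib

/-!
Definitions: triangulations of a convex polygon and their Kneser hypergraphs.
The vertices of the `n`-gon are labelled `0, 1, ..., n-1` in cyclic order.
-/

set_option autoImplicit false

namespace Pool.Agent.Lib.MPea1cff

/-- `d = (i, j)` with `i < j < n` encodes the pair `{i, j}` of vertices of the `n`-gon; it is a
diagonal when `i` and `j` are not cyclically adjacent. -/
def IsDiagonal (n : ℕ) (d : ℕ × ℕ) : Prop :=
  d.1 < d.2 ∧ d.2 < n ∧ d.1 + 1 ≠ d.2 ∧ ¬ (d.1 = 0 ∧ d.2 + 1 = n)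

/-- Two diagonals cross: their endpoints strictly alternate. -/
def Crossing (d e : ℕ × ℕ) : Prop :=
  (d.1 < e.1 ∧ e.1 < d.2 ∧ d.2 < e.2) ∨ (e.1 < d.1 ∧ d.1 < e.2 ∧ e.2 < d.2)

/-- A triangulation of the `n`-gon, as its set of diagonals: a set of `n - 3` pairwise
noncrossing diagonals. -/
def IsTriangulation (n : ℕ) (T : Finset (ℕ × ℕ)) : Prop :=
  (∀ d ∈ T, IsDiagonal n d) ∧ (∀ d ∈ T, ∀ e ∈ T, ¬ Crossing d e) ∧ T.card = n - 3

/-- `S` is an edge of the Kneser hypergraph `KG^r(T_n)`: a set of `r` triangulations that are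
pairwise disjoint. -/
def IsEdge (r n : ℕ) (S : Finset (Finset (ℕ × ℕ))) : Prop :=
  (∀ T ∈ S, IsTriangulation n T) ∧ S.card = r ∧ ∀ T ∈ S, ∀ T' ∈ S, T ≠ T' → Disjoint T T'

/-- `KG^r(T_n)` has a proper colouring with `k` colours: no edge has all its vertices of the same
colour. (Values of the colouring outside the set of triangulations are irrelevant.) -/
def Colorable (r n k : ℕ) : Prop :=
  ∃ c : Finset (ℕ × ℕ) → Fin k, ∀ S, IsEdge r n S → ¬ ∀ T ∈ S, ∀ T' ∈ S, c T = c T'

/-- The chromatic number of `KG^r(T_n)`. -/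
noncomputable def chi (r n : ℕ) : ℕ := sInf {k : ℕ | Colorable r n k}

end Pool.Agent.Lib.MPea1cff
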