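import Mathlib

/-!
The two-class partition of the subsets of `{0, ..., 3r-2}`.
-/

set_option autoImplicit false

namespace Pool.Agent.Lib.MPea1cff

open Finset

/-- The set `A` of `2r-1` positions. -/
def AA (r : ℕ) : Finset ℕ := range r ∪ Ico (r + 1) (2 * r)

/-- The set `B` of `r` positions. -/
def BB (r : ℕ) : Finset ℕ := insert r (Ico (2 * r) (3 * r - 1))

/-- The special sets. -/
def MM (r : ℕ) (E : Finset ℕ) : Prop :=
  (E ∩ AA r).card = 2 ∧ (∀ x ∈ E ∩ AA r, r - 1 ≤ x) ∧ 3 * r - 2 ∈ E ∧ 3 * r - 3 ∉ E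

/-- Class zero. -/
def ZZ (r : ℕ) (E : Finset ℕ) : Prop :=
  (2 ≤ (E ∩ AA r).card ∧ ¬ MM r E) ∨ E = {r - 2, 3 * r - 3}

lemma mem_AA {r x : ℕ} : x ∈ AA r ↔ x < r ∨ (r + 1 ≤ x ∧ x < 2 * r) := by
  unfold AA; rw [mem_union, mem_range, mem_Ico]

lemma mem_BB {r x : ℕ} : x ∈ BB r ↔ x = r ∨ (2 * r ≤ x ∧ x < 3 * r - 1) := by
  unfold BB; rw [mem_insert, mem_Ico]

lemma card_AA {r : ℕ} (hr : 1 ≤ r) : (AA r).card = 2 * r - 1 := by
  unfold AA
  rw [Finset.card_union_of_disjoint, card_range, Nat.card_Ico]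
  · omega
  · rw [Finset.disjoint_left]
    intro x h1 h2
    rw [mem_range] at h1; rw [mem_Ico] at h2; omega

lemma card_BB {r : ℕ} (hr : 1 ≤ r) : (BB r).card = r := by
  unfold BB
  rw [Finset.card_insert_of_notMem, Nat.card_Ico]
  · omega
  · rw [mem_Ico]; omega

/-- Pairwise disjoint family. -/
def PD (F : Finset (Finset ℕ)) : Prop := ∀ E ∈ F, ∀ E' ∈ F, E ≠ E' → Disjoint E E'

lemma sum_inter_le {F : Finset (Finset ℕ)} (hF : PD F) (Y : Finset ℕ) :
    ∑ E ∈ F, (E ∩ Y).card ≤ Y.card := by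
  rw [← Finset.card_biUnion]
  · apply Finset.card_le_card
    intro x hx
    rw [Finset.mem_biUnion] at hx
    obtain ⟨E, _, hE⟩ := hx
    exact (Finset.mem_inter.1 hE).2
  · intro E hE E' hE' hne
    exact Disjoint.mono Finset.inter_subset_left Finset.inter_subset_left (hF E hE E' hE' hne)

lemma card_le_of_meets {F : Finset (Finset ℕ)} (hF : PD F) (Y : Finset ℕ)
    (h : ∀ E ∈ F, ∃ x ∈ E, x ∈ Y) : F.card ≤ Y.card := by
  refine le_trans ?_ (sum_inter_le hF Y)
  rw [Finset.card_eq_sum_ones]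
  apply Finset.sum_le_sum
  intro E hE
  obtain ⟨x, hx, hxY⟩ := h E hE
  exact Finset.card_pos.2 ⟨x, Finset.mem_inter.2 ⟨hx, hxY⟩⟩

lemma PD.subset {F F' : Finset (Finset ℕ)} (hF : PD F) (h : F' ⊆ F) : PD F' :=
  fun E hE E' hE' hne => hF E (h hE) E' (h hE') hne

/-- The crossing property used. -/
def CR (F : Finset (Finset ℕ)) : Prop := ∀ u v : ℕ, u < v → ({u, v} : Finset ℕ) ∈ F →
  ∀ E ∈ F, E ≠ {u, v} → (∃ w ∈ E, u < w ∧ w < v) ∧ (∃ w ∈ E, w < u ∨ v < w)

lemma not_all_ZZ {r : ℕ} (hr : 3 ≤ r) {F : Finset (Finset ℕ)} (hcard : F.card = r) (hF : PD F)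
    (hsub : ∀ E ∈ F, ∀ x ∈ E, x < 3 * r - 1) (hcr : CR F) : ¬ ∀ E ∈ F, ZZ r E := by
  intro hall
  set e0 : Finset ℕ := {r - 2, 3 * r - 3} with he0
  have hmem : e0 ∈ F := by
    by_contra hcon
    have h1 : ∀ E ∈ F, 2 ≤ (E ∩ AA r).card := by
      intro E hE
      rcases hall E hE with h | h
      · exact h.1
      · rw [h] at hE; exact absurd hE hcon
    have h2 := sum_inter_le hF (AA r)
    have h3 : ∑ E ∈ F, 2 ≤ ∑ E ∈ F, (E ∩ AA r).card := Finset.sum_le_sum h1
    rw [Finset.sum_const, smul_eq_mul, hcard] at h3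
    rw [card_AA (by omega)] at h2
    omega
  set F' := F.erase e0 with hF'
  have hF'card : F'.card = r - 1 := by
    rw [hF', Finset.card_erase_of_mem hmem, hcard]
  have hF'PD : PD F' := hF.subset (Finset.erase_subset _ _)
  have hne : ∀ E ∈ F', E ∈ F ∧ E ≠ e0 := fun E hE =>
    ⟨Finset.mem_of_mem_erase hE, Finset.ne_of_mem_erase hE⟩
  have hdis : ∀ E ∈ F', r - 2 ∉ E ∧ 3 * r - 3 ∉ E := by
    intro E hE
    have hd := hF E (hne E hE).1 e0 hmem (hne E hE).2
    rw [Finset.disjoint_left] at hd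
    constructor
    · intro h; exact hd h (by rw [he0]; simp)
    · intro h; exact hd h (by rw [he0]; simp)
  have hout : ∀ E ∈ F', ∃ w ∈ E, w < r - 2 ∨ w = 3 * r - 2 := by
    intro E hE
    obtain ⟨w, hw, hw'⟩ := (hcr (r - 2) (3 * r - 3) (by omega) hmem E (hne E hE).1 (hne E hE).2).2
    have := hsub E (hne E hE).1 w hw
    exact ⟨w, hw, by omega⟩
  -- a set containing 3r-2
  have hE1 : ∃ E1 ∈ F', 3 * r - 2 ∈ E1 := by
    by_contra hcon
    push Not at hcon
    have h1 := card_le_of_meets hF'PD (range (r - 2)) (by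
      intro E hE
      obtain ⟨w, hw, hw'⟩ := hout E hE
      refine ⟨w, hw, ?_⟩
      rw [mem_range]
      rcases hw' with h | h
      · exact h
      · rw [h] at hw; exact absurd hw (hcon E hE))
    rw [card_range, hF'card] at h1
    omega
  obtain ⟨E1, hE1, hE1m⟩ := hE1
  set F'' := F'.erase E1 with hF''
  have hF''card : F''.card = r - 2 := by
    rw [hF'', Finset.card_erase_of_mem hE1, hF'card]; omega
  have hF''PD : PD F'' := hF'PD.subset (Finset.erase_subset _ _)
  have hdis1 : ∀ E ∈ F'', ∀ x ∈ E1, x ∉ E := by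
    intro E hE x hx hxE
    have h1 := Finset.mem_of_mem_erase hE
    have h2 := Finset.ne_of_mem_erase hE
    exact (Finset.disjoint_left.1 (hF'PD E h1 E1 hE1 h2)) hxE hx
  have hlow : ∀ y ∈ E1, ¬ y < r - 2 := by
    intro y hy hyr
    have h1 := card_le_of_meets hF''PD ((range (r - 2)).erase y) (by
      intro E hE
      obtain ⟨w, hw, hw'⟩ := hout E (Finset.mem_of_mem_erase hE)
      refine ⟨w, hw, ?_⟩
      rw [Finset.mem_erase, mem_range]
      constructor
      · rintro rfl; exact hdis1 E hE w hy hw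
      · rcases hw' with h | h
        · exact h
        · rw [h] at hw; exact absurd hw (hdis1 E hE _ hE1m))
    rw [Finset.card_erase_of_mem (mem_range.2 hyr), card_range, hF''card] at h1
    omega
  have hge : ∀ x ∈ E1 ∩ AA r, r - 1 ≤ x := by
    intro x hx
    have hxE := (Finset.mem_inter.1 hx).1
    have h1 := hlow x hxE
    have h2 : x ≠ r - 2 := by rintro rfl; exact (hdis E1 hE1).1 hxE
    omega
  have hZ1 := hall E1 (hne E1 hE1).1
  rcases hZ1 with hZ1 | hZ1
  · apply hZ1.2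
    refine ⟨?_, hge, hE1m, (hdis E1 hE1).2⟩
    -- counting
    have hY : ((AA r).erase (r - 2)).card = 2 * r - 2 := by
      rw [Finset.card_erase_of_mem (by rw [mem_AA]; omega), card_AA (by omega)]; omega
    have hint : ∀ E ∈ F', E ∩ (AA r).erase (r - 2) = E ∩ AA r := by
      intro E hE
      ext x
      rw [Finset.mem_inter, Finset.mem_inter, Finset.mem_erase]
      constructor
      · rintro ⟨h1, -, h2⟩; exact ⟨h1, h2⟩
      · rintro ⟨h1, h2⟩
        refine ⟨h1, ?_, h2⟩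
        rintro rfl; exact (hdis E hE).1 h1
    have hsum := sum_inter_le hF'PD ((AA r).erase (r - 2))
    rw [hY, Finset.sum_congr rfl (fun E hE => by rw [hint E hE])] at hsum
    rw [← Finset.add_sum_erase F' _ hE1, ← hF''] at hsum
    have h2 : ∀ E ∈ F'', 2 ≤ (E ∩ AA r).card := by
      intro E hE
      have h1 := Finset.mem_of_mem_erase hE
      rcases hall E (hne E h1).1 with h | h
      · exact h.1
      · exact absurd h (hne E h1).2
    have h3 : ∑ E ∈ F'', 2 ≤ ∑ E ∈ F'', (E ∩ AA r).card := Finset.sum_le_sum h2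
    rw [Finset.sum_const, smul_eq_mul, hF''card] at h3
    have h4 := hZ1.1
    omega
  · exact (hne E1 hE1).2 hZ1

lemma not_all_not_ZZ {r : ℕ} (hr : 3 ≤ r) {F : Finset (Finset ℕ)} (hcard : F.card = r)
    (hF : PD F) (hsub : ∀ E ∈ F, ∀ x ∈ E, x < 3 * r - 1) (h2 : ∀ E ∈ F, 2 ≤ E.card)
    (hcr : CR F) : ¬ ∀ E ∈ F, ¬ ZZ r E := by
  intro hall
  have hAB : ∀ E ∈ F, ∀ x ∈ E, x ∈ AA r ∨ x ∈ BB r := by
    intro E hE x hx
    have := hsub E hE x hx
    rw [mem_AA, mem_BB]; omega
  have hcase : ∀ E ∈ F, (E ∩ AA r).card ≤ 1 ∨ MM r E := by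
    intro E hE
    by_contra hcon
    push Not at hcon
    exact hall E hE (Or.inl ⟨hcon.1, hcon.2⟩)
  have hnote0 : ∀ E ∈ F, E ≠ {r - 2, 3 * r - 3} := fun E hE h => hall E hE (Or.inr h)
  -- every member meets B
  have hmeet : ∀ E ∈ F, ∃ x ∈ E, x ∈ BB r := by
    intro E hE
    rcases hcase E hE with h | h
    · by_contra hcon
      push Not at hcon
      have hEA : E ∩ AA r = E := by
        apply Finset.inter_eq_left.2
        intro x hx
        rcases hAB E hE x hx with h' | h'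
        · exact h'
        · exact absurd h' (hcon x hx)
      rw [hEA] at h
      have := h2 E hE
      omega
    · exact ⟨3 * r - 2, h.2.2.1, by rw [mem_BB]; omega⟩
  have hdisj : ∀ E ∈ F, ∀ E' ∈ F, ∀ x, x ∈ E → x ∈ E' → E = E' := by
    intro E hE E' hE' x hx hx'
    by_contra hne
    exact (Finset.disjoint_left.1 (hF E hE E' hE' hne)) hx hx'
  -- every element of B is used
  have hcover : ∀ b ∈ BB r, ∃ E ∈ F, b ∈ E := by
    intro b hb
    by_contra hcon
    push Not at hcon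
    have h1 := card_le_of_meets hF ((BB r).erase b) (by
      intro E hE
      obtain ⟨x, hx, hxB⟩ := hmeet E hE
      refine ⟨x, hx, Finset.mem_erase.2 ⟨?_, hxB⟩⟩
      rintro rfl; exact hcon E hE hx)
    rw [Finset.card_erase_of_mem hb, card_BB (by omega), hcard] at h1
    omega
  -- general uniqueness principle
  have huniq : ∀ (G : Finset (Finset ℕ)) (Y : Finset ℕ), G ⊆ F → (∀ E ∈ G, ∃ x ∈ E, x ∈ Y) →
      Y.card ≤ G.card → ∀ E ∈ G, ∀ x ∈ E, ∀ x' ∈ E, x ∈ Y → x' ∈ Y → x = x' := by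
    intro G Y hG hmY hYG E hE x hx x' hx' hxY hxY'
    by_contra hne
    have h1 := card_le_of_meets (hF.subset (le_trans (Finset.erase_subset E G) hG))
      ((Y.erase x).erase x') (by
        intro E' hE'
        have h3 := Finset.mem_of_mem_erase hE'
        have h4 := Finset.ne_of_mem_erase hE'
        obtain ⟨w, hw, hwY⟩ := hmY E' h3
        refine ⟨w, hw, Finset.mem_erase.2 ⟨?_, Finset.mem_erase.2 ⟨?_, hwY⟩⟩⟩
        · rintro rfl; exact h4 (hdisj E' (hG h3) E (hG hE) w hw hx')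
        · rintro rfl; exact h4 (hdisj E' (hG h3) E (hG hE) w hw hx))
    rw [Finset.card_erase_of_mem hE, Finset.card_erase_of_mem
      (Finset.mem_erase.2 ⟨fun h => hne h.symm, hxY'⟩), Finset.card_erase_of_mem hxY] at h1
    have h5 : 0 < G.card := Finset.card_pos.2 ⟨E, hE⟩
    have h6 : 2 ≤ Y.card := by
      have : ({x, x'} : Finset ℕ) ⊆ Y := by
        intro z hz
        rw [Finset.mem_insert, Finset.mem_singleton] at hz
        rcases hz with rfl | rfl
        · exact hxY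
        · exact hxY'
      have h7 := Finset.card_le_card this
      rw [Finset.card_pair hne] at h7
      exact h7
    omega
  have hB1 : ∀ E ∈ F, ∀ x ∈ E, ∀ x' ∈ E, x ∈ BB r → x' ∈ BB r → x = x' :=
    huniq F (BB r) (Finset.Subset.refl _) hmeet (by rw [card_BB (by omega), hcard])
  -- members whose B-element is not 3r-2 are pairs
  have hpair : ∀ E ∈ F, ∀ b ∈ E, b ∈ BB r → 3 * r - 2 ∉ E → ∃ a ∈ AA r, a ≠ b ∧ E = {a, b} := by
    intro E hE b hb hbB hnot
    have hle : (E ∩ AA r).card ≤ 1 := by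
      rcases hcase E hE with h | h
      · exact h
      · exact absurd h.2.2.1 hnot
    have hE2 := h2 E hE
    obtain ⟨a, ha, hab⟩ := Finset.exists_mem_ne (s := E) (by omega) b
    have haB : a ∉ BB r := fun h => hab (hB1 E hE a ha b hb h hbB)
    have haA : a ∈ AA r := (hAB E hE a ha).resolve_right haB
    refine ⟨a, haA, hab, ?_⟩
    ext x
    rw [Finset.mem_insert, Finset.mem_singleton]
    constructor
    · intro hx
      rcases hAB E hE x hx with h | h
      · left
        rw [Finset.card_le_one] at hle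
        exact hle x (Finset.mem_inter.2 ⟨hx, h⟩) a (Finset.mem_inter.2 ⟨ha, haA⟩)
      · right; exact hB1 E hE x hx b hb h hbB
    · rintro (rfl | rfl)
      · exact ha
      · exact hb
  -- the member containing r
  have hrB : r ∈ BB r := by rw [mem_BB]; left; rfl
  have hlB : 3 * r - 2 ∈ BB r := by rw [mem_BB]; omega
  obtain ⟨E1, hE1, hrE1⟩ := hcover r hrB
  have hn1 : 3 * r - 2 ∉ E1 := by
    intro h
    have := hB1 E1 hE1 r hrE1 (3 * r - 2) h hrB hlB
    omega
  obtain ⟨a1, ha1A, ha1, hE1eq⟩ := hpair E1 hE1 r hrE1 hrB hn1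
  set G := F.erase E1 with hG
  have hGcard : G.card = r - 1 := by rw [hG, Finset.card_erase_of_mem hE1, hcard]
  have hGF : G ⊆ F := Finset.erase_subset _ _
  have hGPD : PD G := hF.subset hGF
  have hGne : ∀ E ∈ G, E ≠ E1 := fun E hE => Finset.ne_of_mem_erase hE
  rw [mem_AA] at ha1A
  -- a1 is not above r
  have ha1lt : a1 < r := by
    by_contra hcon
    have hE1eq' : E1 = {r, a1} := by rw [hE1eq, Finset.pair_comm]
    have h1 := card_le_of_meets hGPD (Ioo r a1) (by
      intro E hE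
      obtain ⟨⟨w, hw, hw'⟩, -⟩ := hcr r a1 (by omega) (hE1eq' ▸ hE1) E (hGF hE)
        (hE1eq' ▸ hGne E hE)
      exact ⟨w, hw, Finset.mem_Ioo.2 hw'⟩)
    rw [Nat.card_Ioo, hGcard] at h1
    omega
  have hcr1 : ∀ E ∈ G, ∃ w ∈ E, a1 < w ∧ w < r := by
    intro E hE
    exact (hcr a1 r ha1lt (hE1eq ▸ hE1) E (hGF hE) (hE1eq ▸ hGne E hE)).1
  have ha10 : a1 = 0 := by
    have h1 := card_le_of_meets hGPD (Ioo a1 r) (by
      intro E hE
      obtain ⟨w, hw, hw'⟩ := hcr1 E hE
      exact ⟨w, hw, Finset.mem_Ioo.2 hw'⟩)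
    rw [Nat.card_Ioo, hGcard] at h1
    omega
  rw [ha10] at hcr1
  -- members with B-element in [2r, 3r-3]
  have hEb : ∀ b, 2 * r ≤ b → b ≤ 3 * r - 3 → ∃ a, 0 < a ∧ a < r ∧ ({a, b} : Finset ℕ) ∈ F := by
    intro b hb1 hb2
    have hbB : b ∈ BB r := by rw [mem_BB]; omega
    obtain ⟨E, hE, hbE⟩ := hcover b hbB
    have hnot : 3 * r - 2 ∉ E := by
      intro h
      have := hB1 E hE b hbE (3 * r - 2) h hbB hlB
      omega
    obtain ⟨a, haA, hab, hEeq⟩ := hpair E hE b hbE hbB hnot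
    have hEne : E ≠ E1 := by
      rintro rfl
      have := hB1 E hE b hbE r hrE1 hbB hrB
      omega
    obtain ⟨w, hw, hw'⟩ := hcr1 E (Finset.mem_erase.2 ⟨hEne, hE⟩)
    rw [hEeq, Finset.mem_insert, Finset.mem_singleton] at hw
    rcases hw with rfl | rfl
    · exact ⟨w, hw'.1, hw'.2, hEeq ▸ hE⟩
    · omega
  have hmono : ∀ a a' b b', 2 * r ≤ b → b < b' → a < r → a' < r →
      ({a, b} : Finset ℕ) ∈ F → ({a', b'} : Finset ℕ) ∈ F → a < a' := by
    intro a a' b b' hb hbb' ha ha' h h'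
    have hne : ({a', b'} : Finset ℕ) ≠ {a, b} := by
      intro heq
      have : b' ∈ ({a, b} : Finset ℕ) := by rw [← heq]; simp
      rw [Finset.mem_insert, Finset.mem_singleton] at this
      omega
    obtain ⟨⟨w, hw, hw'⟩, -⟩ := hcr a b (by omega) h _ h' hne
    rw [Finset.mem_insert, Finset.mem_singleton] at hw
    rcases hw with rfl | rfl
    · exact hw'.1
    · omega
  have hlower : ∀ i, 2 * r + i ≤ 3 * r - 3 → ∀ a, a < r → 0 < a →
      ({a, 2 * r + i} : Finset ℕ) ∈ F → i + 1 ≤ a := by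
    intro i
    induction i with
    | zero => intro _ a _ h0 _; omega
    | succ i ih =>
      intro hi a ha ha0 hmem
      obtain ⟨a', ha'0, ha'r, hmem'⟩ := hEb (2 * r + i) (by omega) (by omega)
      have h1 := ih (by omega) a' ha'r ha'0 hmem'
      have h3 := hmono a' a (2 * r + i) (2 * r + (i + 1)) (by omega) (by omega) ha'r ha hmem' hmem
      omega
  obtain ⟨a, ha0, har, hmem⟩ := hEb (3 * r - 3) (by omega) (by omega)
  have hage : r - 2 ≤ a := by
    have h1 : 3 * r - 3 = 2 * r + (r - 3) := by omega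
    rw [h1] at hmem
    have := hlower (r - 3) (by omega) a har ha0 hmem
    omega
  -- the member containing 3r-2
  have hale : a ≤ r - 2 := by
    by_contra hcon
    have ha' : a = r - 1 := by omega
    subst ha'
    obtain ⟨El, hEl, hlEl⟩ := hcover (3 * r - 2) hlB
    have hElne : El ≠ {r - 1, 3 * r - 3} := by
      rintro rfl
      rw [Finset.mem_insert, Finset.mem_singleton] at hlEl
      omega
    have hElne1 : El ≠ E1 := by
      rintro rfl; exact hn1 hlEl
    obtain ⟨x, hx, hx1, hx2⟩ := hcr1 El (Finset.mem_erase.2 ⟨hElne1, hEl⟩)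
    have hxne : x ≠ r - 1 := by
      rintro rfl
      exact hElne (hdisj El hEl _ hmem (r - 1) hx (by simp))
    have hxA : x ∈ AA r := by rw [mem_AA]; left; exact hx2
    rcases hcase El hEl with h | h
    · -- El is the pair {x, 3r-2}
      obtain ⟨⟨w, hw, hw1, hw2⟩, -⟩ := hcr (r - 1) (3 * r - 3) (by omega) hmem El hEl hElne
      rcases hAB El hEl w hw with h' | h'
      · rw [Finset.card_le_one] at h
        have := h x (Finset.mem_inter.2 ⟨hx, hxA⟩) w (Finset.mem_inter.2 ⟨hw, h'⟩)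
        omega
      · have := hB1 El hEl w hw (3 * r - 2) hlEl h' hlB
        omega
    · have := h.2.1 x (Finset.mem_inter.2 ⟨hx, hxA⟩)
      omega
  have haeq : a = r - 2 := by omega
  subst haeq
  exact hnote0 _ hmem rfl

end Pool.Agent.Lib.MPea1cff
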