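import Mathlib

/-!
Maximal noncrossing chord systems of a convex polygon, as abstract relations: apexes, ears and
the key lemma on two such systems.
-/

set_option autoImplicit false

namespace Pool.Agent.Lib.MPea1cff

/-- Strict cyclic betweenness of natural numbers. -/
def sb (a b c : ℕ) : Prop := (a < b ∧ b < c) ∨ (b < c ∧ c < a) ∨ (c < a ∧ a < b)

/-- Cyclic successor. -/
def sc (n x : ℕ) : ℕ := if x + 1 < n then x + 1 else 0

/-- A maximal noncrossing chord system (boundary edges included). -/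
structure CPoly (n : ℕ) (R : ℕ → ℕ → Prop) : Prop where
  symm : ∀ {a b}, R a b → R b a
  lt : ∀ {a b}, R a b → a < n
  ne : ∀ {a b}, R a b → a ≠ b
  succ : ∀ {a}, a < n → R a (sc n a)
  noncross : ∀ {a b c d}, R a b → R c d → sb a c b → sb b d a → False
  maximal : ∀ {a b}, a < n → b < n → a ≠ b →
    (∀ c d, R c d → sb a c b → sb b d a → False) → R a b

/-- Rotation by `p`. -/
def ro (n p x : ℕ) : ℕ := if x + p < n then x + p else x + p - n

/-- Rotated relation. -/
def rot (n p : ℕ) (R : ℕ → ℕ → Prop) (x y : ℕ) : Prop := x < n ∧ y < n ∧ R (ro n p x) (ro n p y)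

lemma ro_lt {n p x : ℕ} (hp : p < n) (hx : x < n) : ro n p x < n := by
  unfold ro; split_ifs <;> omega

lemma ro_surj {n p y : ℕ} (hp : p < n) (hy : y < n) : ∃ x, x < n ∧ ro n p x = y := by
  by_cases h : p ≤ y
  · refine ⟨y - p, by omega, ?_⟩
    unfold ro; split_ifs <;> omega
  · refine ⟨y + n - p, by omega, ?_⟩
    unfold ro; split_ifs <;> omega

lemma ro_inj {n p x y : ℕ} (hp : p < n) (hx : x < n) (hy : y < n) (h : ro n p x = ro n p y) :
    x = y := by
  unfold ro at h; split_ifs at h <;> omega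

lemma sb_ro {n p a b c : ℕ} (hp : p < n) (ha : a < n) (hb : b < n) (hc : c < n) :
    sb (ro n p a) (ro n p b) (ro n p c) ↔ sb a b c := by
  unfold sb ro
  split_ifs <;> omega

lemma ro_sc {n p x : ℕ} (hn : 2 ≤ n) (hp : p < n) (hx : x < n) :
    ro n p (sc n x) = sc n (ro n p x) := by
  unfold ro sc
  split_ifs <;> omega

lemma sc_lt {n x : ℕ} (hn : 1 ≤ n) : sc n x < n := by
  unfold sc; split_ifs <;> omega

lemma CPoly.rot {n p : ℕ} {R : ℕ → ℕ → Prop} (hR : CPoly n R) (hn : 2 ≤ n) (hp : p < n) :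
    CPoly n (rot n p R) where
  symm := fun ⟨h1, h2, h3⟩ => ⟨h2, h1, hR.symm h3⟩
  lt := fun ⟨h1, _, _⟩ => h1
  ne := by
    rintro a b ⟨h1, h2, h3⟩ rfl
    exact hR.ne h3 rfl
  succ := by
    intro a ha
    refine ⟨ha, sc_lt (by omega), ?_⟩
    rw [ro_sc hn hp ha]
    exact hR.succ (ro_lt hp ha)
  noncross := by
    rintro a b c d ⟨ha, hb, h3⟩ ⟨hc, hd, h6⟩ h7 h8
    exact hR.noncross h3 h6 ((sb_ro hp ha hc hb).2 h7) ((sb_ro hp hb hd ha).2 h8)
  maximal := by
    intro a b ha hb hab h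
    refine ⟨ha, hb, ?_⟩
    apply hR.maximal (ro_lt hp ha) (ro_lt hp hb) (fun he => hab (ro_inj hp ha hb he))
    intro c d hcd h1 h2
    obtain ⟨c', hc', rfl⟩ := ro_surj hp (hR.lt hcd)
    obtain ⟨d', hd', rfl⟩ := ro_surj hp (hR.lt (hR.symm hcd))
    exact h c' d' ⟨hc', hd', hcd⟩ ((sb_ro hp ha hc' hb).1 h1) ((sb_ro hp hb hd' ha).1 h2)

/-- Apex of the edge `(n-1, 0)`. -/
lemma CPoly.apex_last {n : ℕ} {R : ℕ → ℕ → Prop} (hR : CPoly n R) (hn : 3 ≤ n) :
    ∃ c, 0 < c ∧ c < n - 1 ∧ R 0 c ∧ R (n - 1) c := by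
  classical
  have h01 : R 0 1 := by
    have := hR.succ (a := 0) (by omega)
    unfold sc at this
    rw [if_pos (by omega)] at this
    exact this
  -- the farthest neighbour of 0 other than n-1
  have hex : ∃ c, (0 < c ∧ c < n - 1 ∧ R 0 c) ∧ ∀ c', (0 < c' ∧ c' < n - 1 ∧ R 0 c') → c' ≤ c := by
    have hne : ((Finset.range (n - 1)).filter (fun c => 0 < c ∧ R 0 c)).Nonempty :=
      ⟨1, by simp only [Finset.mem_filter, Finset.mem_range]; exact ⟨by omega, by omega, h01⟩⟩
    obtain ⟨c, hc, hmax⟩ := Finset.exists_max_image _ (fun x => x) hne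
    simp only [Finset.mem_filter, Finset.mem_range] at hc hmax
    exact ⟨c, ⟨hc.2.1, hc.1, hc.2.2⟩, fun c' h => hmax c' ⟨h.2.1, h.1, h.2.2⟩⟩
  obtain ⟨c, ⟨h1, h2, h3⟩, hmax⟩ := hex
  refine ⟨c, h1, h2, h3, ?_⟩
  apply hR.symm
  apply hR.maximal (by omega) (by omega) (by omega)
  intro u v huv hu hv
  have hun := hR.lt huv
  have hvn := hR.lt (hR.symm huv)
  unfold sb at hu hv
  have hu' : c < u ∧ u < n - 1 := by omega
  have hv' : v < c := by omega
  by_cases hv0 : v = 0
  · subst hv0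
    have := hmax u ⟨by omega, by omega, hR.symm huv⟩
    omega
  · exact hR.noncross h3 (hR.symm huv) (by unfold sb; omega) (by unfold sb; omega)

/-- Apex of an arbitrary boundary edge. -/
lemma CPoly.apex {n : ℕ} {R : ℕ → ℕ → Prop} (hR : CPoly n R) (hn : 3 ≤ n) {x : ℕ} (hx : x < n) :
    ∃ c, c < n ∧ c ≠ x ∧ c ≠ sc n x ∧ R x c ∧ R (sc n x) c := by
  have hsx : sc n x < n := sc_lt (by omega)
  obtain ⟨c, h1, h2, h3, h4⟩ := (hR.rot (by omega) hsx).apex_last hn
  obtain ⟨-, hc, h3⟩ := h3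
  obtain ⟨-, -, h4⟩ := h4
  have e0 : ro n (sc n x) 0 = sc n x := by unfold ro; split_ifs <;> omega
  have e1 : ro n (sc n x) (n - 1) = x := by
    unfold ro sc; split_ifs <;> omega
  rw [e0] at h3
  rw [e1] at h4
  refine ⟨ro n (sc n x) c, ro_lt hsx hc, ?_, ?_, h4, h3⟩
  · intro he
    exact hR.ne h4 he.symm
  · intro he
    exact hR.ne h3 he.symm

/-- Every chord cuts off an ear. -/
lemma CPoly.ear {n : ℕ} {R : ℕ → ℕ → Prop} (hR : CPoly n R) (hn : 3 ≤ n) (l : ℕ) :
    ∀ u v, R u v → u + 2 ≤ v → v - u = l → ∃ e, u < e ∧ e < v ∧ R (e - 1) (e + 1) := by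
  induction l using Nat.strong_induction_on with
  | _ l ih =>
    intro u v huv h2 hl
    have hv := hR.lt (hR.symm huv)
    by_cases h3 : v = u + 2
    · subst h3
      exact ⟨u + 1, by omega, by omega, by simpa using huv⟩
    · obtain ⟨c, hc1, hc2, hc3, hc4, hc5⟩ := hR.apex hn (x := u) (by omega)
      have hsc : sc n u = u + 1 := by unfold sc; rw [if_pos (by omega)]
      rw [hsc] at hc3 hc5
      have hcin : u < c ∧ c ≤ v := by
        by_contra hcon
        apply hR.noncross huv hc5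
        · unfold sb; omega
        · unfold sb; omega
      rcases Nat.lt_or_ge c v with hcv | hcv
      · obtain ⟨e, he1, he2, he3⟩ := ih (c - u) (by omega) u c hc4 (by omega) rfl
        exact ⟨e, he1, by omega, he3⟩
      · have hcv' : c = v := by omega
        subst hcv'
        obtain ⟨e, he1, he2, he3⟩ := ih (c - (u + 1)) (by omega) (u + 1) c hc5 (by omega) rfl
        exact ⟨e, by omega, he2, he3⟩

/-- If there is no ear strictly between `0` and `m`, the apexes over the edges of `[0,m]` lie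
strictly beyond `m`. -/
lemma CPoly.apex_beyond {n m : ℕ} {R : ℕ → ℕ → Prop} (hR : CPoly n R) (hm2 : m + 2 ≤ n)
    (hno : ∀ e, 0 < e → e < m → ¬ R (e - 1) (e + 1)) {i : ℕ} (hi : i < m) :
    ∃ c, m < c ∧ c < n ∧ R i c ∧ R (i + 1) c := by
  obtain ⟨c, hc1, hc2, hc3, hc4, hc5⟩ := hR.apex (by omega) (x := i) (by omega)
  have hsc : sc n i = i + 1 := by unfold sc; rw [if_pos (by omega)]
  rw [hsc] at hc3 hc5
  refine ⟨c, ?_, hc1, hc4, hc5⟩
  by_contra hcm
  rcases Nat.lt_or_ge c i with h | h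
  · obtain ⟨e, he1, he2, he3⟩ := hR.ear (by omega) _ c (i + 1) (hR.symm hc5) (by omega) rfl
    exact hno e (by omega) (by omega) he3
  · obtain ⟨e, he1, he2, he3⟩ := hR.ear (by omega) _ i c hc4 (by omega) rfl
    exact hno e (by omega) (by omega) he3

/-- Key lemma, in coordinates where the two special vertices are `0` and `m`. -/
lemma key_zero {n m : ℕ} {R R' : ℕ → ℕ → Prop} (hR : CPoly n R) (hR' : CPoly n R')
    (hm : 2 ≤ m) (hm2 : m + 2 ≤ n)
    (hno : ∀ e, 0 < e → e < m → ¬ R (e - 1) (e + 1))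
    (hno' : ∀ e, m < e → e < n → ¬ R' (e - 1) (sc n e)) :
    ∃ i b, 0 < i ∧ i < m ∧ m < b ∧ b < n ∧ R i b ∧ R' i b := by
  classical
  -- apexes of the first system
  have hf : ∀ i, ∃ c, i < m → (m < c ∧ c < n ∧ R i c ∧ R (i + 1) c) := by
    intro i
    by_cases hi : i < m
    · obtain ⟨c, h⟩ := hR.apex_beyond hm2 hno hi
      exact ⟨c, fun _ => h⟩
    · exact ⟨0, fun h => absurd h hi⟩
  choose f hf using hf
  -- apexes of the second system
  have hg : ∀ j, ∃ c, (m ≤ j ∧ j < n) → (0 < c ∧ c < m ∧ R' j c ∧ R' (sc n j) c) := by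
    intro j
    by_cases hj : m ≤ j ∧ j < n
    · have hrot := hR'.rot (p := m) (by omega) (by omega)
      have hno2 : ∀ e, 0 < e → e < n - m → ¬ rot n m R' (e - 1) (e + 1) := by
        rintro e he1 he2 ⟨-, -, h3⟩
        apply hno' (e + m) (by omega) (by omega)
        have e1 : ro n m (e - 1) = e + m - 1 := by unfold ro; split_ifs <;> omega
        have e2 : ro n m (e + 1) = sc n (e + m) := by unfold ro sc; split_ifs <;> omega
        rw [e1, e2] at h3
        exact h3
      obtain ⟨c, h1, h2, h3, h4⟩ := hrot.apex_beyond (m := n - m) (by omega) hno2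
        (i := j - m) (by omega)
      obtain ⟨-, -, h3⟩ := h3
      obtain ⟨-, -, h4⟩ := h4
      have e1 : ro n m (j - m) = j := by unfold ro; split_ifs <;> omega
      have e2 : ro n m (j - m + 1) = sc n j := by unfold ro sc; split_ifs <;> omega
      have e3 : ro n m c = c + m - n := by unfold ro; split_ifs <;> omega
      rw [e1, e3] at h3
      rw [e2, e3] at h4
      exact ⟨c + m - n, fun _ => ⟨by omega, by omega, h3, h4⟩⟩
    · exact ⟨0, fun h => absurd h hj⟩
  choose g hg using hg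
  have fmono : ∀ i i', i < i' → i' < m → f i' ≤ f i := by
    intro i i' h1 h2
    by_contra hcon
    obtain ⟨a1, a2, a3, a4⟩ := hf i (by omega)
    obtain ⟨b1, b2, b3, b4⟩ := hf i' h2
    exact hR.noncross a3 b3 (by unfold sb; omega) (by unfold sb; omega)
  have gmono : ∀ j j', m ≤ j → j ≤ j' → j' < n → g j' ≤ g j := by
    intro j j' h0 h1 h2
    rcases Nat.eq_or_lt_of_le h1 with h | h
    · rw [h]
    · by_contra hcon
      obtain ⟨a1, a2, a3, a4⟩ := hg j ⟨h0, by omega⟩
      obtain ⟨b1, b2, b3, b4⟩ := hg j' ⟨by omega, h2⟩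
      exact hR'.noncross (hR'.symm a3) (hR'.symm b3) (by unfold sb; omega) (by unfold sb; omega)
  -- the composite
  have hex : ∃ i, 1 ≤ i ∧ i < m ∧ g (f i - 1) ≤ i := by
    refine ⟨m - 1, by omega, by omega, ?_⟩
    obtain ⟨a1, a2, a3, a4⟩ := hf (m - 1) (by omega)
    obtain ⟨b1, b2, b3, b4⟩ := hg (f (m - 1) - 1) ⟨by omega, by omega⟩
    omega
  obtain ⟨hi1, hi2, hi3⟩ := Nat.find_spec hex
  have hmin := fun j (hj : j < Nat.find hex) => Nat.find_min hex hj
  set i := Nat.find hex with hidef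
  obtain ⟨a1, a2, a3, a4⟩ := hf (i - 1) (by omega)
  obtain ⟨c1, c2, c3, c4⟩ := hf i hi2
  obtain ⟨b1, b2, b3, b4⟩ := hg (f (i - 1) - 1) ⟨by omega, by omega⟩
  have hge : i ≤ g (f (i - 1) - 1) := by
    by_cases h1 : i = 1
    · rw [h1] at b1 ⊢; omega
    · have h2 := hmin (i - 1) (by omega)
      by_contra hcon
      exact h2 ⟨by omega, by omega, by omega⟩
  have hle : g (f (i - 1) - 1) ≤ i := by
    refine le_trans ?_ hi3
    apply gmono
    · omega
    · have := fmono (i - 1) i (by omega) hi2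
      omega
    · omega
  have heq : g (f (i - 1) - 1) = i := by omega
  refine ⟨i, f (i - 1), by omega, hi2, a1, a2, ?_, ?_⟩
  · have : i - 1 + 1 = i := by omega
    rw [this] at a4
    exact a4
  · rw [heq] at b4
    have : sc n (f (i - 1) - 1) = f (i - 1) := by unfold sc; rw [if_pos (by omega)]; omega
    rw [this] at b4
    exact hR'.symm b4

/-- Key lemma. -/
lemma key {n p q : ℕ} {R R' : ℕ → ℕ → Prop} (hR : CPoly n R) (hR' : CPoly n R')
    (hpq : p + 2 ≤ q) (hq : q < n) (hqp : q + 2 ≤ n + p)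
    (hno : ∀ e, p < e → e < q → ¬ R (e - 1) (e + 1))
    (hno' : ∀ e, e < n → (e < p ∨ q < e) → ¬ R' (if e = 0 then n - 1 else e - 1) (sc n e)) :
    ∃ i b, p < i ∧ i < q ∧ b < n ∧ (b < p ∨ q < b) ∧ R i b ∧ R' i b := by
  have h1 := hR.rot (p := p) (by omega) (by omega)
  have h2 := hR'.rot (p := p) (by omega) (by omega)
  obtain ⟨i, b, hi1, hi2, hb1, hb2, hib, hib'⟩ := key_zero (m := q - p) h1 h2 (by omega) (by omega)
    (by
      rintro e he1 he2 ⟨-, -, h3⟩
      apply hno (e + p) (by omega) (by omega)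
      have e1 : ro n p (e - 1) = e + p - 1 := by unfold ro; split_ifs <;> omega
      have e2 : ro n p (e + 1) = e + p + 1 := by unfold ro; split_ifs <;> omega
      rw [e1, e2] at h3
      exact h3)
    (by
      rintro e he1 he2 ⟨-, -, h3⟩
      apply hno' (ro n p e) (ro_lt (by omega) he2) (by unfold ro; split_ifs <;> omega)
      have e1 : ro n p (e - 1) = (if ro n p e = 0 then n - 1 else ro n p e - 1) := by
        unfold ro; split_ifs <;> omega
      rw [e1, ro_sc (by omega) (by omega) he2] at h3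
      exact h3)
  obtain ⟨-, -, h3⟩ := hib
  obtain ⟨-, -, h4⟩ := hib'
  have e1 : ro n p i = i + p := by unfold ro; split_ifs <;> omega
  rw [e1] at h3 h4
  exact ⟨i + p, ro n p b, by omega, by omega, ro_lt (by omega) hb2,
    by unfold ro; split_ifs <;> omega, h3, h4⟩

end Pool.Agent.Lib.MPea1cff
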