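import Mathlib
import Pool.Agent.Lib.MP_ea1cff_co.Defs
import Pool.Agent.Lib.MP_ea1cff_co.Poly

/-!
Triangulations as maximal noncrossing chord systems; ears.
-/

set_option autoImplicit false

namespace Pool.Agent.Lib.MPea1cff

open Finset

/-- A noncrossing family of chords of length at least two inside `[a,b]` has at most `b-a-1`
members. -/
lemma card_noncrossing_le (l : ℕ) : ∀ (a b : ℕ) (S : Finset (ℕ × ℕ)), b - a = l → a < b →
    (∀ d ∈ S, a ≤ d.1 ∧ d.1 + 2 ≤ d.2 ∧ d.2 ≤ b) → (∀ d ∈ S, ∀ e ∈ S, ¬ Crossing d e) →
    S.card ≤ b - a - 1 := by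
  induction l using Nat.strong_induction_on with
  | _ l ih =>
    intro a b S hl hab hS hc
    by_cases hb : b = a + 1
    · have : S = ∅ := by
        rw [Finset.eq_empty_iff_forall_notMem]
        intro d hd
        have := hS d hd
        omega
      rw [this]; simp
    · set S' := S.erase (a, b) with hS'
      have hcard : S.card ≤ S'.card + 1 := by
        have : S.card - 1 ≤ S'.card := Finset.pred_card_le_card_erase
        omega
      have hmem : ∀ d ∈ S', d ∈ S := fun d hd => Finset.mem_of_mem_erase hd
      -- the largest right endpoint of a chord of S' starting at a (or a+1)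
      have hex : ∃ c, a < c ∧ c < b ∧ (∀ d ∈ S', d.1 = a → d.2 ≤ c) ∧
          (c = a + 1 ∨ (a, c) ∈ S') := by
        by_cases hne : (S'.filter (fun d => d.1 = a)).Nonempty
        · obtain ⟨d, hd, hmax⟩ := Finset.exists_max_image _ (fun d : ℕ × ℕ => d.2) hne
          rw [Finset.mem_filter] at hd
          have h1 := hS d (hmem d hd.1)
          have h2 : d ≠ (a, b) := Finset.ne_of_mem_erase hd.1
          have h3 : d.2 ≠ b := by
            intro h; apply h2; exact Prod.ext hd.2 h
          refine ⟨d.2, by omega, by omega, ?_, ?_⟩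
          · intro e he hea
            exact hmax e (Finset.mem_filter.2 ⟨he, hea⟩)
          · right
            have : (a, d.2) = d := Prod.ext hd.2.symm rfl
            rw [this]; exact hd.1
        · refine ⟨a + 1, by omega, by omega, ?_, Or.inl rfl⟩
          intro d hd hda
          exact absurd ⟨d, Finset.mem_filter.2 ⟨hd, hda⟩⟩ hne
      obtain ⟨c, hac, hcb, hmax, hcor⟩ := hex
      have hsplit : ∀ d ∈ S', d.2 ≤ c ∨ c ≤ d.1 := by
        intro d hd
        by_contra hcon
        push Not at hcon
        have h1 := hS d (hmem d hd)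
        by_cases hda : d.1 = a
        · have := hmax d hd hda; omega
        · rcases hcor with h | h
          · omega
          · apply hc (a, c) (hmem _ h) d (hmem d hd)
            left
            exact ⟨by simp only; omega, by simp only; omega, by simp only; omega⟩
      have hunion : S' ⊆ S'.filter (fun d => d.2 ≤ c) ∪ S'.filter (fun d => c ≤ d.1) := by
        intro d hd
        rw [Finset.mem_union, Finset.mem_filter, Finset.mem_filter]
        rcases hsplit d hd with h | h
        · exact Or.inl ⟨hd, h⟩
        · exact Or.inr ⟨hd, h⟩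
      have h1 := ih (c - a) (by omega) a c (S'.filter (fun d => d.2 ≤ c)) rfl hac
        (by
          intro d hd
          rw [Finset.mem_filter] at hd
          have := hS d (hmem d hd.1)
          omega)
        (by
          intro d hd e he
          exact hc d (hmem d (Finset.mem_filter.1 hd).1) e (hmem e (Finset.mem_filter.1 he).1))
      have h2 := ih (b - c) (by omega) c b (S'.filter (fun d => c ≤ d.1)) rfl hcb
        (by
          intro d hd
          rw [Finset.mem_filter] at hd
          have := hS d (hmem d hd.1)
          omega)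
        (by
          intro d hd e he
          exact hc d (hmem d (Finset.mem_filter.1 hd).1) e (hmem e (Finset.mem_filter.1 he).1))
      have h3 := Finset.card_le_card hunion
      have h4 := Finset.card_union_le (S'.filter (fun d => d.2 ≤ c)) (S'.filter (fun d => c ≤ d.1))
      omega

/-- Triangulations are maximal noncrossing sets. -/
lemma IsTriangulation.maximal {n : ℕ} {T : Finset (ℕ × ℕ)} (hT : IsTriangulation n T)
    (hn : 3 ≤ n) {d : ℕ × ℕ} (hd : IsDiagonal n d) (hnc : ∀ e ∈ T, ¬ Crossing d e) : d ∈ T := by
  by_contra hdT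
  obtain ⟨h1, h2, h3⟩ := hT
  have hnc' : ∀ e ∈ T, ¬ Crossing e d := by
    intro e he h
    apply hnc e he
    unfold Crossing at h ⊢
    omega
  set S := insert ((0 : ℕ), n - 1) (insert d T) with hS
  have hrange : ∀ e ∈ insert d T, IsDiagonal n e := by
    intro e he
    rcases Finset.mem_insert.1 he with h | h
    · rw [h]; exact hd
    · exact h1 e h
  have hout : ((0 : ℕ), n - 1) ∉ insert d T := by
    intro h
    have := hrange _ h
    unfold IsDiagonal at this
    exact this.2.2.2 ⟨rfl, by simp only; omega⟩
  have hcard : S.card = n - 1 := by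
    rw [hS, Finset.card_insert_of_notMem hout, Finset.card_insert_of_notMem hdT, h3]
    omega
  have hle := card_noncrossing_le (n - 1) 0 (n - 1) S (by omega) (by omega)
    (by
      intro e he
      rcases Finset.mem_insert.1 he with h | h
      · rw [h]
        refine ⟨Nat.zero_le _, ?_, le_refl _⟩
        show 0 + 2 ≤ n - 1
        omega
      · have := hrange e h
        unfold IsDiagonal at this
        omega)
    (by
      intro e he f hf
      rcases Finset.mem_insert.1 he with h | h <;> rcases Finset.mem_insert.1 hf with h' | h'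
      · rw [h, h']; unfold Crossing; simp only; omega
      · have := hrange f h'
        rw [h]; unfold IsDiagonal at this; unfold Crossing; simp only; omega
      · have := hrange e h
        rw [h']; unfold IsDiagonal at this; unfold Crossing; simp only; omega
      · rcases Finset.mem_insert.1 h with g | g <;> rcases Finset.mem_insert.1 h' with g' | g'
        · rw [g, g']; unfold Crossing; omega
        · rw [g]; exact hnc f g'
        · rw [g']; exact hnc' e g
        · exact h2 e g f g')
  omega

/-- Adjacency in a triangulation, boundary edges included. -/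
def Adj (n : ℕ) (T : Finset (ℕ × ℕ)) (x y : ℕ) : Prop :=
  (x, y) ∈ T ∨ (y, x) ∈ T ∨ (x < n ∧ y < n ∧ (y = sc n x ∨ x = sc n y))

lemma IsTriangulation.cpoly {n : ℕ} {T : Finset (ℕ × ℕ)} (hT : IsTriangulation n T)
    (hn : 3 ≤ n) : CPoly n (Adj n T) := by
  have hdiag : ∀ a b, (a, b) ∈ T → a < b ∧ b < n ∧ a + 1 ≠ b ∧ ¬ (a = 0 ∧ b + 1 = n) := by
    intro a b h
    exact hT.1 _ h
  have hcross : ∀ a b c d, (a, b) ∈ T → (c, d) ∈ T → ¬ (a < c ∧ c < b ∧ b < d) := by
    intro a b c d h1 h2 h3
    exact hT.2.1 _ h1 _ h2 (Or.inl h3)
  refine ⟨?_, ?_, ?_, ?_, ?_, ?_⟩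
  · intro a b h
    rcases h with h | h | ⟨h1, h2, h3⟩
    · exact Or.inr (Or.inl h)
    · exact Or.inl h
    · exact Or.inr (Or.inr ⟨h2, h1, h3.symm⟩)
  · intro a b h
    rcases h with h | h | ⟨h1, h2, h3⟩
    · have := hdiag _ _ h; omega
    · have := hdiag _ _ h; omega
    · exact h1
  · intro a b h
    rcases h with h | h | ⟨h1, h2, h3⟩
    · have := hdiag _ _ h; omega
    · have := hdiag _ _ h; omega
    · unfold sc at h3
      split_ifs at h3 <;> omega
  · intro a ha
    exact Or.inr (Or.inr ⟨ha, sc_lt (by omega), Or.inl rfl⟩)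
  · intro a b c d hab hcd h1 h2
    rcases hab with hab | hab | ⟨ha, hb, hab⟩
    · have k1 := hdiag _ _ hab
      rcases hcd with hcd | hcd | ⟨hc, hd, hcd⟩
      · have k2 := hdiag _ _ hcd
        have k3 := hcross _ _ _ _ hab hcd
        have k4 := hcross _ _ _ _ hcd hab
        unfold sb at h1 h2; omega
      · have k2 := hdiag _ _ hcd
        have k3 := hcross _ _ _ _ hab hcd
        have k4 := hcross _ _ _ _ hcd hab
        unfold sb at h1 h2; omega
      · unfold sb at h1 h2; unfold sc at hcd
        split_ifs at hcd <;> omega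
    · have k1 := hdiag _ _ hab
      rcases hcd with hcd | hcd | ⟨hc, hd, hcd⟩
      · have k2 := hdiag _ _ hcd
        have k3 := hcross _ _ _ _ hab hcd
        have k4 := hcross _ _ _ _ hcd hab
        unfold sb at h1 h2; omega
      · have k2 := hdiag _ _ hcd
        have k3 := hcross _ _ _ _ hab hcd
        have k4 := hcross _ _ _ _ hcd hab
        unfold sb at h1 h2; omega
      · unfold sb at h1 h2; unfold sc at hcd
        split_ifs at hcd <;> omega
    · have hc : c < n := by
        rcases hcd with hcd | hcd | ⟨hc, hd, hcd⟩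
        · have := hdiag _ _ hcd; omega
        · have := hdiag _ _ hcd; omega
        · exact hc
      have hd : d < n := by
        rcases hcd with hcd | hcd | ⟨hc, hd, hcd⟩
        · have := hdiag _ _ hcd; omega
        · have := hdiag _ _ hcd; omega
        · exact hd
      unfold sb at h1 h2; unfold sc at hab
      split_ifs at hab <;> omega
  · -- maximality
    have main : ∀ a b, a < b → b < n →
        (∀ c d, Adj n T c d → sb a c b → sb b d a → False) → Adj n T a b := by
      intro a b hab hb h
      by_cases hbd : b = sc n a ∨ a = sc n b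
      · exact Or.inr (Or.inr ⟨by omega, hb, hbd⟩)
      · left
        apply hT.maximal hn
        · unfold IsDiagonal
          simp only
          unfold sc at hbd
          refine ⟨hab, hb, ?_, ?_⟩
          · intro he; apply hbd; left; rw [if_pos (by omega)]; omega
          · rintro ⟨h0, h1⟩; apply hbd; right; rw [if_neg (by omega)]; exact h0
        · rintro ⟨e1, e2⟩ he hcr
          have k := hdiag _ _ he
          unfold Crossing at hcr
          simp only at hcr
          rcases hcr with hcr | hcr
          · exact h e1 e2 (Or.inl he) (by unfold sb; omega) (by unfold sb; omega)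
          · exact h e2 e1 (Or.inr (Or.inl he)) (by unfold sb; omega) (by unfold sb; omega)
    intro a b ha hb hab h
    rcases Nat.lt_or_gt_of_ne hab with hlt | hgt
    · exact main a b hlt hb h
    · have := main b a hgt ha (by
        intro c d hcd h1 h2
        have hdc : Adj n T d c := by
          rcases hcd with hcd | hcd | ⟨hc, hd, hcd⟩
          · exact Or.inr (Or.inl hcd)
          · exact Or.inl hcd
          · exact Or.inr (Or.inr ⟨hd, hc, hcd.symm⟩)
        exact h d c hdc h2 h1)
      rcases this with hcd | hcd | ⟨hc, hd, hcd⟩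
      · exact Or.inr (Or.inl hcd)
      · exact Or.inl hcd
      · exact Or.inr (Or.inr ⟨hd, hc, hcd.symm⟩)

/-- The diagonal cutting off the vertex `v`. -/
def earPair (n v : ℕ) : ℕ × ℕ :=
  if v = 0 then (1, n - 1) else if v + 1 = n then (0, n - 2) else (v - 1, v + 1)

/-- The set of ears. -/
def ears (n : ℕ) (T : Finset (ℕ × ℕ)) : Finset ℕ := (range n).filter (fun v => earPair n v ∈ T)

lemma mem_ears {n : ℕ} {T : Finset (ℕ × ℕ)} {v : ℕ} :
    v ∈ ears n T ↔ v < n ∧ earPair n v ∈ T := by
  unfold ears; rw [mem_filter, mem_range]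

lemma ear_of_adj {n : ℕ} {T : Finset (ℕ × ℕ)} (hT : IsTriangulation n T) (hn : 4 ≤ n) {v : ℕ}
    (hv : v < n) (h : Adj n T (if v = 0 then n - 1 else v - 1) (sc n v)) : v ∈ ears n T := by
  rw [mem_ears]
  refine ⟨hv, ?_⟩
  unfold earPair
  have hpq : ∀ x y, x ≠ y → ¬ (x < n ∧ y < n ∧ (y = sc n x ∨ x = sc n y)) → x < y →
      Adj n T x y → (x, y) ∈ T := by
    intro x y _ h1 h2 h3
    rcases h3 with h3 | h3 | h3
    · exact h3
    · have k := hT.1 _ h3
      unfold IsDiagonal at k
      simp only at k
      omega
    · exact absurd h3 h1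
  have hR := hT.cpoly (by omega)
  by_cases h0 : v = 0
  · subst h0
    have e1 : sc n 0 = 1 := by unfold sc; rw [if_pos (by omega)]
    rw [if_pos rfl, e1] at h
    rw [if_pos rfl]
    refine hpq 1 (n - 1) (by omega) ?_ (by omega) (hR.symm h)
    rintro ⟨_, _, k | k⟩
    · unfold sc at k; split_ifs at k <;> omega
    · unfold sc at k; split_ifs at k <;> omega
  · by_cases h1 : v + 1 = n
    · have e1 : sc n v = 0 := by unfold sc; rw [if_neg (by omega)]
      rw [if_neg h0, e1] at h
      rw [if_neg h0, if_pos h1]
      have e2 : v - 1 = n - 2 := by omega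
      rw [e2] at h
      refine hpq 0 (n - 2) (by omega) ?_ (by omega) (hR.symm h)
      rintro ⟨_, _, k | k⟩
      · unfold sc at k; split_ifs at k <;> omega
      · unfold sc at k; split_ifs at k <;> omega
    · have e1 : sc n v = v + 1 := by unfold sc; rw [if_pos (by omega)]
      rw [if_neg h0, e1] at h
      rw [if_neg h0, if_neg h1]
      refine hpq (v - 1) (v + 1) (by omega) ?_ (by omega) h
      rintro ⟨_, _, k | k⟩
      · unfold sc at k; split_ifs at k <;> omega
      · unfold sc at k; split_ifs at k <;> omega

lemma ears_disjoint {n : ℕ} {T T' : Finset (ℕ × ℕ)} (h : Disjoint T T') :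
    Disjoint (ears n T) (ears n T') := by
  rw [Finset.disjoint_left] at h ⊢
  intro v hv hv'
  rw [mem_ears] at hv hv'
  exact h hv.2 hv'.2

lemma two_le_card_ears {n : ℕ} {T : Finset (ℕ × ℕ)} (hT : IsTriangulation n T) (hn : 4 ≤ n) :
    2 ≤ (ears n T).card := by
  have hR := hT.cpoly (by omega)
  have h0 : ∀ p, p < n → ∃ e, 0 < e ∧ e < n - 1 ∧ ro n p e ∈ ears n T := by
    intro p hp
    have hrot := hR.rot (p := p) (by omega) hp
    have hch : rot n p (Adj n T) 0 (n - 1) := by
      have := hrot.succ (a := n - 1) (by omega)
      have e : sc n (n - 1) = 0 := by unfold sc; rw [if_neg (by omega)]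
      rw [e] at this
      exact hrot.symm this
    obtain ⟨e, he1, he2, he3⟩ := hrot.ear (by omega) _ 0 (n - 1) hch (by omega) rfl
    refine ⟨e, he1, he2, ?_⟩
    obtain ⟨-, -, h3⟩ := he3
    apply ear_of_adj hT hn (ro_lt hp (by omega))
    have e1 : ro n p (e - 1) = (if ro n p e = 0 then n - 1 else ro n p e - 1) := by
      unfold ro; split_ifs <;> omega
    have e2 : ro n p (e + 1) = sc n (ro n p e) := by
      unfold ro sc; split_ifs <;> omega
    rw [e1, e2] at h3
    exact h3
  obtain ⟨e, he1, he2, he3⟩ := h0 0 (by omega)
  have e3 : ro n 0 e = e := by unfold ro; split_ifs <;> omega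
  rw [e3] at he3
  obtain ⟨e', he1', he2', he3'⟩ := h0 e (by omega)
  have hne : ro n e e' ≠ e := by unfold ro; split_ifs <;> omega
  have hsub : ({e, ro n e e'} : Finset ℕ) ⊆ ears n T := by
    intro x hx
    rw [Finset.mem_insert, Finset.mem_singleton] at hx
    rcases hx with rfl | rfl
    · exact he3
    · exact he3'
  have := Finset.card_le_card hsub
  rw [Finset.card_pair hne.symm] at this
  exact this

/-- A triangulation with exactly two ears `u < v` and a disjoint triangulation `T'`: `T'` has ears
on both sides. -/
lemma both_sides {n : ℕ} {T T' : Finset (ℕ × ℕ)} (hT : IsTriangulation n T)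
    (hT' : IsTriangulation n T') (hn : 4 ≤ n) (hdisj : Disjoint T T') {u v : ℕ} (huv : u < v)
    (he : ears n T = {u, v}) :
    (∃ w ∈ ears n T', u < w ∧ w < v) ∧ (∃ w ∈ ears n T', w < u ∨ v < w) := by
  have hu : u < n ∧ earPair n u ∈ T := by
    rw [← mem_ears, he]; simp
  have hv : v < n ∧ earPair n v ∈ T := by
    rw [← mem_ears, he]; simp
  have hnot : ∀ w, w < n → w ≠ u → w ≠ v → w ∉ ears n T := by
    intro w _ h1 h2 h3
    rw [he, Finset.mem_insert, Finset.mem_singleton] at h3
    rcases h3 with h3 | h3
    · exact h1 h3
    · exact h2 h3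
  have hnc := hT.2.1 _ hu.2 _ hv.2
  have hsep : u + 2 ≤ v ∧ v + 2 ≤ n + u := by
    unfold Crossing earPair at hnc
    split_ifs at hnc <;> simp only at hnc <;> omega
  have hR := hT.cpoly (by omega)
  have hR' := hT'.cpoly (by omega)
  have hcommon : ∀ i b, u < i → i < v → b < n → (b < u ∨ v < b) → Adj n T i b →
      Adj n T' i b → False := by
    intro i b h1 h2 h3 h4 h5 h6
    have hex : ∀ S : Finset (ℕ × ℕ), IsTriangulation n S → Adj n S i b →
        (min i b, max i b) ∈ S := by
      intro S hS h
      rcases h with h | h | ⟨k1, k2, k3⟩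
      · have := hS.1 _ h
        unfold IsDiagonal at this
        simp only at this
        rw [min_eq_left (by omega), max_eq_right (by omega)]; exact h
      · have := hS.1 _ h
        unfold IsDiagonal at this
        simp only at this
        rw [min_eq_right (by omega), max_eq_left (by omega)]; exact h
      · unfold sc at k3
        split_ifs at k3 <;> omega
    exact (Finset.disjoint_left.1 hdisj) (hex T hT h5) (hex T' hT' h6)
  constructor
  · by_contra hcon
    push Not at hcon
    obtain ⟨i, b, h1, h2, h3, h4, h5, h6⟩ := key hR' hR hsep.1 hv.1 hsep.2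
      (by
        intro e he1 he2 h
        have := hcon e (ear_of_adj hT' hn (by omega) (by
          unfold sc
          rw [if_neg (by omega), if_pos (by omega)]; exact h)) he1
        omega)
      (by
        intro e he1 he2 h
        exact hnot e he1 (by omega) (by omega) (ear_of_adj hT hn he1 h))
    exact hcommon i b h1 h2 h3 h4 h6 h5
  · by_contra hcon
    push Not at hcon
    obtain ⟨i, b, h1, h2, h3, h4, h5, h6⟩ := key hR hR' hsep.1 hv.1 hsep.2
      (by
        intro e he1 he2 h
        exact hnot e (by omega) (by omega) (by omega) (ear_of_adj hT hn (by omega) (by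
          unfold sc
          rw [if_neg (by omega), if_pos (by omega)]; exact h)))
      (by
        intro e he1 he2 h
        have := hcon e (ear_of_adj hT' hn he1 h)
        omega)
    exact hcommon i b h1 h2 h3 h4 h5 h6

end Pool.Agent.Lib.MPea1cff
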